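import Mathlib
import Pool.Agent.Y957.MC.Spec
import Pool.Agent.H165R3.BPE

/-!
The pointwise ergodic theorem for measurable flows (project MC).
-/

set_option autoImplicit false

namespace Pool.Agent.Y48.MC

open MeasureTheory Filter Topology
open Pool.Agent.Y957.MC

universe u

section

variable {X : Type u} [MeasurableSpace X] {μ : Measure X} {τ : ℝ → X → X} {g : X → ℝ} {C : ℝ}

theorem orb_meas (hτ : IsFlow μ τ) (hg : Measurable g) (x : X) :
    Measurable (fun r : ℝ => g (τ r x)) :=
  hg.comp (hτ.meas.comp (measurable_id.prodMk measurable_const))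

theorem orb_int (hτ : IsFlow μ τ) (hg : Measurable g) (hC : ∀ x, |g x| ≤ C) (x : X) (a b : ℝ) :
    IntervalIntegrable (fun r : ℝ => g (τ r x)) volume a b := by
  refine (intervalIntegrable_const (c := C)).mono_fun' (orb_meas hτ hg x).aestronglyMeasurable ?_
  filter_upwards with r
  exact hC _

theorem orb_bd (hC : ∀ x, |g x| ≤ C) (x : X) (a b : ℝ) :
    |∫ r in a..b, g (τ r x)| ≤ C * |b - a| := by
  have h := intervalIntegral.norm_integral_le_of_norm_le_const (f := fun r => g (τ r x)) (a := a)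
    (b := b) (C := C) (fun r _ => by rw [Real.norm_eq_abs]; exact hC _)
  rwa [Real.norm_eq_abs] at h

theorem smo_meas (hτ : IsFlow μ τ) (hg : Measurable g) {V : ℝ} (hV : 0 ≤ V) :
    Measurable (smo τ g V) := by
  unfold smo
  refine Measurable.const_mul ?_ _
  have h : ∀ x : X, ∫ r in (0 : ℝ)..V, g (τ r x) = ∫ r in Set.Ioc 0 V, g (τ r x) :=
    fun x => intervalIntegral.integral_of_le hV
  simp only [h]
  have h2 : StronglyMeasurable (fun p : X × ℝ => g (τ p.2 p.1)) :=
    (hg.comp (hτ.meas.comp measurable_swap)).stronglyMeasurable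
  exact (h2.integral_prod_right' (ν := volume.restrict (Set.Ioc 0 V))).measurable

theorem smo_bd (hC0 : 0 ≤ C) (hC : ∀ x, |g x| ≤ C) {V : ℝ} (hV : 0 ≤ V) (x : X) :
    |smo τ g V x| ≤ C := by
  unfold smo
  rcases hV.eq_or_lt with rfl | hV
  · simpa using hC0
  · rw [abs_mul]
    have h := orb_bd (τ := τ) hC x 0 V
    rw [sub_zero, abs_of_pos hV] at h
    rw [abs_of_pos (by positivity : (0 : ℝ) < 1 / V)]
    calc 1 / V * |∫ r in (0 : ℝ)..V, g (τ r x)| ≤ 1 / V * (C * V) :=
          mul_le_mul_of_nonneg_left h (by positivity)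
      _ = C := by field_simp

theorem iter (hτ : IsFlow μ τ) (k : ℕ) (x : X) : (τ 1)^[k] x = τ k x := by
  induction k with
  | zero => simp [hτ.zero]
  | succ k ih =>
    rw [Function.iterate_succ_apply', ih, ← hτ.add]
    congr 1
    push_cast
    ring

theorem orb_shift (hτ : IsFlow μ τ) (x : X) (t a b : ℝ) :
    ∫ r in a..b, g (τ r (τ t x)) = ∫ r in (a + t)..(b + t), g (τ r x) := by
  rw [← intervalIntegral.integral_comp_add_right]
  congr 1
  funext r
  rw [hτ.add]

theorem sum_eq (hτ : IsFlow μ τ) (hg : Measurable g) (hC : ∀ x, |g x| ≤ C) (n : ℕ) (x : X) :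
    (n : ℝ)⁻¹ * ∑ k ∈ Finset.range n, smo τ g 1 ((τ 1)^[k] x) = smo τ g n x := by
  have h : ∀ k : ℕ, smo τ g 1 ((τ 1)^[k] x) =
      ∫ r in (k : ℝ)..((k + 1 : ℕ) : ℝ), g (τ r x) := by
    intro k
    unfold smo
    rw [iter hτ, orb_shift hτ, div_one, one_mul, zero_add]
    congr 1
    push_cast
    ring
  simp only [h]
  rw [intervalIntegral.sum_integral_adjacent_intervals (a := fun k : ℕ => (k : ℝ))
    (fun k _ => orb_int hτ hg hC x _ _)]
  unfold smo
  simp

/-- Difference of the averages at real and integral times. -/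
theorem floor_diff (hτ : IsFlow μ τ) (hg : Measurable g) (hC0 : 0 ≤ C) (hC : ∀ x, |g x| ≤ C)
    {V : ℝ} (hV : 1 ≤ V) (x : X) : |smo τ g V x - smo τ g (⌊V⌋₊ : ℕ) x| ≤ 2 * C / V := by
  set n : ℕ := ⌊V⌋₊ with hn
  have hV0 : 0 < V := by linarith
  have hn1 : (n : ℝ) ≤ V := Nat.floor_le hV0.le
  have hn2 : V < n + 1 := Nat.lt_floor_add_one V
  have hn0 : (1 : ℝ) ≤ n := by
    have : 1 ≤ n := Nat.le_floor (by exact_mod_cast hV)
    exact_mod_cast this
  have hn0' : (0 : ℝ) < n := by linarith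
  have e1 : ∫ r in (0 : ℝ)..V, g (τ r x) = (∫ r in (0 : ℝ)..n, g (τ r x)) +
      ∫ r in (n : ℝ)..V, g (τ r x) :=
    (intervalIntegral.integral_add_adjacent_intervals (orb_int hτ hg hC x _ _)
      (orb_int hτ hg hC x _ _)).symm
  have b1 := orb_bd (τ := τ) hC x 0 n
  have b2 := orb_bd (τ := τ) hC x n V
  rw [sub_zero, abs_of_pos hn0'] at b1
  rw [abs_of_nonneg (by linarith : (0 : ℝ) ≤ V - n)] at b2
  unfold smo
  rw [e1]
  set P := ∫ r in (0 : ℝ)..n, g (τ r x)
  set Q := ∫ r in (n : ℝ)..V, g (τ r x)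
  have e2 : 1 / V * (P + Q) - 1 / n * P = (Q - (V - n) * (P / n)) / V := by
    field_simp
    ring
  rw [e2, abs_div, abs_of_pos hV0]
  refine div_le_div_of_nonneg_right ?_ hV0.le
  have b3 : |P / n| ≤ C := by
    rw [abs_div, abs_of_pos hn0', div_le_iff₀ hn0']
    exact b1
  have b4 : |(V - n) * (P / n)| ≤ C := by
    rw [abs_mul, abs_of_nonneg (by linarith : (0 : ℝ) ≤ V - n)]
    calc (V - n) * |P / n| ≤ 1 * C :=
          mul_le_mul (by linarith) b3 (abs_nonneg _) zero_le_one
      _ = C := one_mul C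
  have b5 : |Q| ≤ C := b2.trans (by nlinarith)
  calc |Q - (V - n) * (P / n)| ≤ |Q| + |(V - n) * (P / n)| := abs_sub _ _
    _ ≤ 2 * C := by linarith

theorem real_of_nat (hτ : IsFlow μ τ) (hg : Measurable g) (hC0 : 0 ≤ C) (hC : ∀ x, |g x| ≤ C)
    {x : X} {l : ℝ} (h : Tendsto (fun n : ℕ => smo τ g n x) atTop (𝓝 l)) :
    Tendsto (fun V : ℝ => smo τ g V x) atTop (𝓝 l) := by
  have h1 : Tendsto (fun V : ℝ => smo τ g (⌊V⌋₊ : ℕ) x) atTop (𝓝 l) :=
    h.comp tendsto_nat_floor_atTop
  have h2 : Tendsto (fun V : ℝ => smo τ g V x - smo τ g (⌊V⌋₊ : ℕ) x) atTop (𝓝 0) := by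
    have h3 : Tendsto (fun V : ℝ => 2 * C / V) atTop (𝓝 0) :=
      tendsto_const_nhds.div_atTop tendsto_id
    refine squeeze_zero_norm' ?_ h3
    filter_upwards [eventually_ge_atTop 1] with V hV
    exact floor_diff hτ hg hC0 hC hV x
  have h4 := h2.add h1
  simpa using h4

/-- The averages at `τ t x` and at `x` have the same limits. -/
theorem shift_diff (hτ : IsFlow μ τ) (hg : Measurable g) (hC : ∀ x, |g x| ≤ C) (t : ℝ) (x : X) :
    Tendsto (fun n : ℕ => smo τ g n (τ t x) - smo τ g n x) atTop (𝓝 0) := by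
  have h3 : Tendsto (fun n : ℕ => 2 * (C * |t|) / (n : ℝ)) atTop (𝓝 0) :=
    tendsto_const_nhds.div_atTop tendsto_natCast_atTop_atTop
  refine squeeze_zero_norm' ?_ h3
  filter_upwards [eventually_ge_atTop 1] with n hn
  have hn' : (0 : ℝ) < n := by exact_mod_cast hn
  unfold smo
  rw [orb_shift hτ, zero_add]
  have i1 := orb_int hτ hg hC x
  have e1 : (∫ r in t..(n + t), g (τ r x)) - ∫ r in (0 : ℝ)..n, g (τ r x) =
      (∫ r in (n : ℝ)..(n + t), g (τ r x)) - ∫ r in (0 : ℝ)..t, g (τ r x) := by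
    have a1 := intervalIntegral.integral_add_adjacent_intervals (i1 0 t) (i1 t (n + t))
    have a2 := intervalIntegral.integral_add_adjacent_intervals (i1 0 n) (i1 n (n + t))
    linarith
  have b1 := orb_bd (τ := τ) hC x n (n + t)
  have b2 := orb_bd (τ := τ) hC x 0 t
  rw [add_sub_cancel_left] at b1
  rw [sub_zero] at b2
  rw [← mul_sub, e1, Real.norm_eq_abs, abs_mul, abs_of_pos (by positivity : (0 : ℝ) < 1 / n),
    one_div, inv_mul_eq_div]
  refine div_le_div_of_nonneg_right ?_ hn'.le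
  calc _ ≤ _ := abs_sub _ _
    _ ≤ 2 * (C * |t|) := by linarith

/-- The limit. -/
noncomputable def ph (τ : ℝ → X → X) (g : X → ℝ) (x : X) : ℝ :=
  limUnder atTop (fun n : ℕ => smo τ g n x)

theorem ph_meas (hτ : IsFlow μ τ) (hg : Measurable g) : Measurable (ph τ g) := by
  have h : ∀ n : ℕ, StronglyMeasurable (fun x => smo τ g n x) :=
    fun n => (smo_meas hτ hg (Nat.cast_nonneg n)).stronglyMeasurable
  exact (StronglyMeasurable.limUnder h).measurable

theorem ph_inv (hτ : IsFlow μ τ) (hg : Measurable g) (hC : ∀ x, |g x| ≤ C) (t : ℝ) (x : X) :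
    ph τ g (τ t x) = ph τ g x := by
  have h : ∀ l : ℝ, Tendsto (fun n : ℕ => smo τ g n (τ t x)) atTop (𝓝 l) ↔
      Tendsto (fun n : ℕ => smo τ g n x) atTop (𝓝 l) := by
    intro l
    have h1 := shift_diff hτ hg hC t x
    constructor
    · intro h2
      have h3 := h2.sub h1
      simpa using h3
    · intro h2
      have h3 := h2.add h1
      simpa using h3
  unfold ph limUnder lim
  congr 1
  funext l
  exact propext (h l)

theorem flowInv_le (τ : ℝ → X → X) : flowInv τ ≤ (inferInstance : MeasurableSpace X) :=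
  (iInf_le _ 0).trans (MeasurableSpace.invariants_le _)

theorem mem_flowInv {E : Set X} : MeasurableSet[flowInv τ] E ↔
    ∀ t : ℝ, MeasurableSet E ∧ τ t ⁻¹' E = E := by
  unfold flowInv
  rw [MeasurableSpace.measurableSet_iInf]
  rfl

/-- Averages and the integral over invariant sets. -/
theorem int_inv [IsProbabilityMeasure μ] (hτ : IsFlow μ τ) (hg : Measurable g)
    (hC : ∀ x, |g x| ≤ C) {E : Set X} (hE : MeasurableSet[flowInv τ] E) {n : ℕ} (hn : 1 ≤ n) :
    ∫ x in E, smo τ g n x ∂μ = ∫ x in E, g x ∂μ := by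
  rw [mem_flowInv] at hE
  have hEm : MeasurableSet E := (hE 0).1
  have hn' : (0 : ℝ) < n := by exact_mod_cast hn
  unfold smo
  rw [integral_const_mul]
  have hfin : IsFiniteMeasure (volume.restrict (Set.uIoc (0 : ℝ) (n : ℝ))) :=
    ⟨by rw [Measure.restrict_apply_univ, Set.uIoc_of_le hn'.le]; exact measure_Ioc_lt_top⟩
  have hint : Integrable (Function.uncurry fun (r : ℝ) (x : X) => g (τ r x))
      ((volume.restrict (Set.uIoc 0 (n : ℝ))).prod (μ.restrict E)) := by
    have hm : Measurable (Function.uncurry fun (r : ℝ) (x : X) => g (τ r x)) :=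
      hg.comp hτ.meas
    refine Integrable.mono' (integrable_const C) hm.aestronglyMeasurable ?_
    filter_upwards with p
    exact hC _
  rw [← intervalIntegral_integral_swap hint]
  have h1 : ∀ r : ℝ, ∫ x in E, g (τ r x) ∂μ = ∫ x in E, g x ∂μ := by
    intro r
    rw [← integral_indicator hEm, ← integral_indicator hEm]
    have h2 : ∀ x, E.indicator (fun x => g (τ r x)) x = (E.indicator g) (τ r x) := by
      intro x
      have h3 : τ r x ∈ E ↔ x ∈ E := by
        have := (hE r).2
        constructor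
        · intro h; rw [← this]; exact h
        · intro h; rw [← this] at h; exact h
      by_cases hx : x ∈ E
      · rw [Set.indicator_of_mem hx, Set.indicator_of_mem (h3.2 hx)]
      · rw [Set.indicator_of_notMem hx, Set.indicator_of_notMem (fun h => hx (h3.1 h))]
    simp only [h2]
    have h4 := integral_map (μ := μ) (hτ.mp r).measurable.aemeasurable
      (f := E.indicator g) (hg.indicator hEm).aestronglyMeasurable
    rw [(hτ.mp r).map_eq] at h4
    exact h4.symm
  simp only [h1]
  rw [intervalIntegral.integral_const, sub_zero, smul_eq_mul]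
  field_simp

end

theorem flwb : S_FLWB.{u} := by
  intro X _ μ _ τ g hτ hg ⟨C', hC'⟩
  obtain ⟨C, hC0, hC⟩ : ∃ C : ℝ, 0 ≤ C ∧ ∀ x, |g x| ≤ C :=
    ⟨max C' 0, le_max_right _ _, fun x => (hC' x).trans (le_max_left _ _)⟩
  have hH := smo_meas hτ hg (V := 1) zero_le_one
  have hHb : ∀ x, |smo τ g 1 x| ≤ C := smo_bd hC0 hC zero_le_one
  have hB := Pool.Agent.H165R3.BPE.birkhoff (hτ.mp 1) (smo τ g 1) hH C hHb
  -- the averages converge to `ph`
  have h1 : ∀ᵐ x ∂μ, Tendsto (fun n : ℕ => smo τ g n x) atTop (𝓝 (ph τ g x)) := by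
    filter_upwards [hB] with x hx
    simp only [sum_eq hτ hg hC] at hx
    exact tendsto_nhds_limUnder ⟨_, hx⟩
  have hb : ∀ᵐ x ∂μ, |ph τ g x| ≤ C := by
    filter_upwards [h1] with x hx
    refine le_of_tendsto hx.abs ?_
    filter_upwards with n
    exact smo_bd hC0 hC (Nat.cast_nonneg n) x
  have hle := flowInv_le τ (X := X)
  have hpm := ph_meas hτ hg
  have hpint : Integrable (ph τ g) μ := by
    refine Integrable.mono' (integrable_const C) hpm.aestronglyMeasurable ?_
    filter_upwards [hb] with x hx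
    exact hx
  have hgint : Integrable g μ := by
    refine Integrable.mono' (integrable_const C) hg.aestronglyMeasurable ?_
    filter_upwards with x
    exact hC x
  have hpinv : Measurable[flowInv τ] (ph τ g) := by
    intro E hE
    rw [mem_flowInv]
    intro t
    refine ⟨hpm hE, ?_⟩
    ext x
    simp only [Set.mem_preimage, ph_inv hτ hg hC]
  have h2 : ph τ g =ᵐ[μ] μ[g | flowInv τ] := by
    refine ae_eq_condExp_of_forall_setIntegral_eq hle hgint (fun s _ _ => hpint.integrableOn) ?_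
      hpinv.stronglyMeasurable.aestronglyMeasurable
    intro E hE _
    have h3 : Tendsto (fun n : ℕ => ∫ x in E, smo τ g n x ∂μ) atTop
        (𝓝 (∫ x in E, ph τ g x ∂μ)) := by
      refine tendsto_integral_of_dominated_convergence (fun _ => C) ?_ ?_ ?_ ?_
      · intro n
        exact (smo_meas hτ hg (Nat.cast_nonneg n)).aestronglyMeasurable
      · exact integrable_const C
      · intro n
        filter_upwards with x
        exact smo_bd hC0 hC (Nat.cast_nonneg n) x
      · exact ae_restrict_of_ae h1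
    have h4 : Tendsto (fun n : ℕ => ∫ x in E, smo τ g n x ∂μ) atTop
        (𝓝 (∫ x in E, g x ∂μ)) := by
      refine tendsto_const_nhds.congr' ?_
      filter_upwards [eventually_ge_atTop 1] with n hn
      exact (int_inv hτ hg hC hE hn).symm
    exact tendsto_nhds_unique h3 h4
  filter_upwards [h1, h2] with x hx hx2
  rw [← hx2]
  exact real_of_nat hτ hg hC0 hC hx

end Pool.Agent.Y48.MC
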